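import Pool.Agent.H2.EA.Stm

/-!
Part ALT: principal minors of alternating matrices.
-/

set_option autoImplicit false

open Finset Module

namespace H60.EA

open H2.EA

/-- `y A y = 0` for an alternating matrix -/
theorem alt_form {F B : Type} [Field F] [Fintype B] [DecidableEq B] (A : Matrix B B F)
    (h0 : ∀ i, A i i = 0) (h1 : ∀ i j, A j i = - A i j) (y : B → F) :
    ∑ i, ∑ j, y i * A i j * y j = 0 := by
  rw [← Finset.sum_product']
  refine Finset.sum_involution (fun p _ => Prod.swap p) ?_ ?_ ?_ ?_
  · rintro ⟨i, j⟩ _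
    simp only [Prod.swap]
    rw [h1 i j]
    ring
  · rintro ⟨i, j⟩ _ hne heq
    simp only [Prod.swap, Prod.mk.injEq] at heq
    obtain ⟨rfl, -⟩ := heq
    simp only [h0, mul_zero, zero_mul, ne_eq, not_true_eq_false] at hne
  · rintro ⟨i, j⟩ _
    simp
  · rintro ⟨i, j⟩ _
    rfl

/-- extension by two indices -/
theorem alt_ext {F X B : Type} [Field F] [Fintype X] [DecidableEq X] [Fintype B] [DecidableEq B]
    (S : Matrix X X F) (h0 : ∀ i, S i i = 0) (h1 : ∀ i j, S j i = - S i j) (g : B → X)
    (hdet : (S.submatrix g g).det ≠ 0) (hr : Fintype.card B < S.rank) :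
    ∃ i j : X, (S.submatrix (Sum.elim g ![i, j]) (Sum.elim g ![i, j])).det ≠ 0 := by
  set A : Matrix B B F := S.submatrix g g with hA
  set U : Matrix X B F := S.submatrix id g with hU
  set W : Matrix B X F := S.submatrix g id with hW
  have hunit : IsUnit A.det := isUnit_iff_ne_zero.mpr hdet
  set T : Matrix X X F := S - U * A⁻¹ * W with hT
  have hTne : T ≠ 0 := by
    intro h
    have h2 : S = U * A⁻¹ * W := by
      rw [hT] at h
      exact sub_eq_zero.mp h
    have h3 : S.rank ≤ Fintype.card B := by
      rw [h2, Matrix.mul_assoc]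
      exact (Matrix.rank_mul_le_left _ _).trans (Matrix.rank_le_card_width _)
    omega
  obtain ⟨i, j, hij⟩ : ∃ i j, T i j ≠ 0 := by
    by_contra hcon
    push Not at hcon
    exact hTne (by ext i j; exact hcon i j)
  have hAt : A.transpose = -A := by
    ext a b
    simp [hA, h1 (g a) (g b)]
  have hAit : (A⁻¹).transpose = -A⁻¹ := by
    rw [Matrix.transpose_nonsing_inv, hAt]
    have h2 : (-A) * (-A⁻¹) = 1 := by
      rw [Matrix.neg_mul, Matrix.mul_neg, neg_neg, Matrix.mul_nonsing_inv A hunit]
    exact Matrix.inv_eq_right_inv h2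
  have hSt : S.transpose = -S := by
    ext a b
    simp [h1 a b]
  have hUt : U.transpose = -W := by
    ext a b
    simp [hU, hW, h1 (g a) b]
  have hWt : W.transpose = -U := by
    ext a b
    simp [hU, hW, h1 a (g b)]
  have hTt : T.transpose = -T := by
    rw [hT, Matrix.transpose_sub, Matrix.transpose_mul, Matrix.transpose_mul, hSt, hUt, hWt, hAit]
    simp only [Matrix.neg_mul, Matrix.mul_neg, neg_neg, Matrix.mul_assoc]
    abel
  have hT0 : ∀ a, T a a = 0 := by
    intro a
    have h2 : (U * A⁻¹ * W) a a = 0 := by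
      set y : B → F := fun b => ∑ b', A⁻¹ b b' * S a (g b') with hy
      have hAy : ∀ b, ∑ b', A b b' * y b' = S a (g b) := by
        intro b
        have h3 : A.mulVec (A⁻¹.mulVec fun b' => S a (g b')) = fun b' => S a (g b') := by
          rw [Matrix.mulVec_mulVec, Matrix.mul_nonsing_inv A hunit, Matrix.one_mulVec]
        have := congrFun h3 b
        exact this
      have h4 : (U * A⁻¹ * W) a a = - ∑ b, ∑ b', y b * A b b' * y b' := by
        rw [Matrix.mul_assoc, Matrix.mul_apply]
        rw [← Finset.sum_neg_distrib]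
        refine Finset.sum_congr rfl fun b _ => ?_
        have h5 : (A⁻¹ * W) b a = - y b := by
          rw [Matrix.mul_apply, hy, ← Finset.sum_neg_distrib]
          refine Finset.sum_congr rfl fun b' _ => ?_
          have : W b' a = - S a (g b') := by
            simp [hW, h1 a (g b')]
          rw [this]
          ring
        rw [h5]
        have h6 : ∑ b', y b * A b b' * y b' = y b * S a (g b) := by
          rw [← hAy b, Finset.mul_sum]
          exact Finset.sum_congr rfl fun b' _ => by ring
        rw [h6]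
        simp only [hU, Matrix.submatrix_apply, id_eq]
        ring
      rw [h4, alt_form A (fun b => h0 _) (fun b b' => h1 _ _) y, neg_zero]
    rw [hT, Matrix.sub_apply, h0, h2, sub_zero]
  refine ⟨i, j, ?_⟩
  have hblock : S.submatrix (Sum.elim g ![i, j]) (Sum.elim g ![i, j]) =
      Matrix.fromBlocks A (S.submatrix g ![i, j]) (S.submatrix ![i, j] g)
        (S.submatrix ![i, j] ![i, j]) := by
    ext a b
    rcases a with a | a <;> rcases b with b | b <;> rfl
  let _ : Invertible A := Matrix.invertibleOfIsUnitDet A hunit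
  rw [hblock, Matrix.det_fromBlocks₁₁]
  have hschur : ∀ h : Fin 2 → X, S.submatrix h h - S.submatrix h g * ⅟A * S.submatrix g h =
      T.submatrix h h := by
    intro h
    rw [Matrix.invOf_eq_nonsing_inv]
    ext a b
    rfl
  rw [hschur, Matrix.det_fin_two]
  have h5 : T j i = - T i j := by
    have := congrFun (congrFun hTt i) j
    simpa using this
  simp only [Matrix.submatrix_apply, Matrix.cons_val_zero, Matrix.cons_val_one, hT0, h5]
  refine mul_ne_zero hdet ?_
  have : (0 : F) * 0 - T i j * -T i j = T i j * T i j := by ring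
  rw [this]
  exact mul_ne_zero hij hij

/-- rows that give a nonsingular square submatrix -/
theorem alt_rows {F P C : Type} [Field F] [Fintype P] [DecidableEq P] [Fintype C] [DecidableEq C]
    (M : Matrix P C F) (h : ∀ y : C → F, (∀ i, ∑ j, M i j * y j = 0) → y = 0) :
    ∃ f : C → P, (M.submatrix f id).det ≠ 0 := by
  obtain ⟨κ, a, ha, hsp, hli⟩ := exists_linearIndependent' F (fun i : P => (M i : C → F))
  have htop : Submodule.span F (Set.range fun i : P => (M i : C → F)) = ⊤ := by
    by_contra hne
    obtain ⟨f, hf1, hf2⟩ := Submodule.exists_le_ker_of_lt_top _ (lt_top_iff_ne_top.mpr hne)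
    apply hf1
    have hf3 : ∀ x : C → F, f x = ∑ i, x i * f (Pi.single i 1) := by
      intro x
      conv_lhs => rw [← Finset.univ_sum_single x]
      rw [map_sum]
      refine Finset.sum_congr rfl fun i _ => ?_
      have : (Pi.single i (x i) : C → F) = x i • (Pi.single i 1 : C → F) := by
        rw [← Pi.single_smul, smul_eq_mul, mul_one]
      rw [this, map_smul, smul_eq_mul]
    have h2 := h (fun j => f (Pi.single j 1)) (fun i => by
      rw [← hf3]
      have : M i ∈ LinearMap.ker f := hf2 (Submodule.subset_span ⟨i, rfl⟩)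
      exact this)
    ext x
    simp only [LinearMap.coe_comp, Function.comp_apply, LinearMap.coe_single, LinearMap.zero_apply]
    have h3 := congrFun h2 x
    simpa using h3
  have _ : Finite κ := Finite.of_injective a ha
  let _ : Fintype κ := Fintype.ofFinite κ
  let b : Basis κ F (C → F) := Basis.mk hli (by rw [hsp, htop])
  have hcard : Fintype.card κ = Fintype.card C := by
    have := Module.finrank_eq_card_basis b
    rw [Module.finrank_fintype_fun_eq_card] at this
    exact this.symm
  let e : C ≃ κ := Fintype.equivOfCardEq hcard.symm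
  refine ⟨fun c => a (e c), ?_⟩
  have hli2 : LinearIndependent F (M.submatrix (fun c => a (e c)) id).row :=
    hli.comp e e.injective
  have := Matrix.linearIndependent_rows_iff_isUnit.mp hli2
  rw [Matrix.isUnit_iff_isUnit_det] at this
  exact this.ne_zero

/-- the base case -/
theorem alt_base {F P C : Type} [Field F] [Fintype P] [DecidableEq P] [Fintype C] [DecidableEq C]
    (S : Matrix (P ⊕ C) (P ⊕ C) F) (h1 : ∀ i j, S j i = - S i j)
    (h2 : ∀ i j, S (Sum.inr i) (Sum.inr j) = 0)
    (f : C → P) (hf : ((S.submatrix Sum.inl Sum.inr).submatrix f id).det ≠ 0) :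
    (S.submatrix (Sum.map f id) (Sum.map f id)).det ≠ 0 := by
  set N : Matrix C C F := (S.submatrix Sum.inl Sum.inr).submatrix f id with hN
  have hNa : ∀ a b, N a b = S (Sum.inl (f a)) (Sum.inr b) := fun a b => rfl
  intro hdet
  rw [← Matrix.exists_mulVec_eq_zero_iff] at hdet
  obtain ⟨x, hx, hx0⟩ := hdet
  apply hx
  have hx1 : ∀ a, x (Sum.inl a) = 0 := by
    have h3 : (fun a => x (Sum.inl a)) = 0 := by
      by_contra hne
      apply hf
      rw [← Matrix.exists_vecMul_eq_zero_iff]
      refine ⟨_, hne, ?_⟩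
      funext c
      have h4 := congrFun hx0 (Sum.inr c)
      simp only [Matrix.mulVec, dotProduct, Fintype.sum_sum_type, Matrix.submatrix_apply,
        Sum.map_inl, Sum.map_inr, id_eq, h2, zero_mul, Finset.sum_const_zero, add_zero,
        Pi.zero_apply] at h4
      simp only [Matrix.vecMul, dotProduct, Pi.zero_apply]
      have h5 : ∑ a, x (Sum.inl a) * N a c = - ∑ a, S (Sum.inr c) (Sum.inl (f a)) * x (Sum.inl a) := by
        rw [← Finset.sum_neg_distrib]
        refine Finset.sum_congr rfl fun a _ => ?_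
        rw [hNa, h1 (Sum.inr c) (Sum.inl (f a))]
        ring
      rw [h5, h4, neg_zero]
    exact fun a => congrFun h3 a
  have hx2 : ∀ a, x (Sum.inr a) = 0 := by
    have h3 : (fun a => x (Sum.inr a)) = 0 := by
      by_contra hne
      apply hf
      rw [← Matrix.exists_mulVec_eq_zero_iff]
      refine ⟨_, hne, ?_⟩
      funext c
      have h4 := congrFun hx0 (Sum.inl c)
      simp only [Matrix.mulVec, dotProduct, Fintype.sum_sum_type, Matrix.submatrix_apply,
        Sum.map_inl, Sum.map_inr, id_eq, hx1, mul_zero, Finset.sum_const_zero, zero_add,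
        Pi.zero_apply] at h4
      simp only [Matrix.mulVec, dotProduct, Pi.zero_apply]
      exact h4
    exact fun a => congrFun h3 a
  funext z
  rcases z with a | a
  · exact hx1 a
  · exact hx2 a

theorem alt_step {F P C : Type} [Field F] [Fintype P] [DecidableEq P] [Fintype C] [DecidableEq C]
    (S : Matrix (P ⊕ C) (P ⊕ C) F) (h0 : ∀ i, S i i = 0) (h1 : ∀ i j, S j i = - S i j)
    (n : ℕ) (f : Fin n → P) (hf : (S.submatrix (Sum.map f id) (Sum.map f id)).det ≠ 0)
    (hr : n + Fintype.card C < S.rank) :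
    ∃ f' : Fin (n + 2) → P, (S.submatrix (Sum.map f' id) (Sum.map f' id)).det ≠ 0 := by
  obtain ⟨i, j, hij⟩ := alt_ext S h0 h1 (Sum.map f id) hf (by
    rw [Fintype.card_sum, Fintype.card_fin]
    exact hr)
  -- the new indices are in `P`
  have hrow : ∀ (a : Fin 2) (c : C), (![i, j] : Fin 2 → P ⊕ C) a ≠ Sum.inr c := by
    intro a c hac
    apply hij
    refine Matrix.det_zero_of_row_eq (i := Sum.inr a) (j := Sum.inl (Sum.inr c)) (by simp) ?_
    funext z
    simp only [Matrix.submatrix_apply, Sum.elim_inr, Sum.elim_inl, Sum.map_inr, id_eq, hac]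
  obtain ⟨p, rfl⟩ : ∃ p, i = Sum.inl p := by
    rcases i with p | c
    · exact ⟨p, rfl⟩
    · exact absurd rfl (hrow 0 c)
  obtain ⟨q, rfl⟩ : ∃ q, j = Sum.inl q := by
    rcases j with q | c
    · exact ⟨q, rfl⟩
    · exact absurd rfl (hrow 1 c)
  refine ⟨Fin.append f ![p, q], ?_⟩
  let e : (Fin n ⊕ C) ⊕ Fin 2 ≃ Fin (n + 2) ⊕ C :=
    (Equiv.sumAssoc (Fin n) C (Fin 2)).trans
      ((Equiv.sumCongr (Equiv.refl _) (Equiv.sumComm C (Fin 2))).trans
        ((Equiv.sumAssoc (Fin n) (Fin 2) C).symm.trans
          (Equiv.sumCongr finSumFinEquiv (Equiv.refl _))))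
  rw [← Matrix.det_submatrix_equiv_self e]
  have h3 : (S.submatrix (Sum.map (Fin.append f ![p, q]) id)
      (Sum.map (Fin.append f ![p, q]) id)).submatrix e e =
      S.submatrix (Sum.elim (Sum.map f id) ![Sum.inl p, Sum.inl q])
        (Sum.elim (Sum.map f id) ![Sum.inl p, Sum.inl q]) := by
    have h4 : ∀ z, Sum.map (Fin.append f ![p, q]) (id : C → C) (e z) =
        Sum.elim (Sum.map f id) ![Sum.inl p, Sum.inl q] z := by
      intro z
      rcases z with (a | c) | a
      · simp [e]
      · simp [e]
      · fin_cases a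
        · simp [e, Fin.append_right]
        · simp [e, Fin.append_right]
    ext a b
    simp only [Matrix.submatrix_apply, h4]
  rw [h3]
  exact hij

theorem alt_main {F P C : Type} [Field F] [Fintype P] [DecidableEq P] [Fintype C] [DecidableEq C]
    (S : Matrix (P ⊕ C) (P ⊕ C) F) (h0 : ∀ i, S i i = 0) (h1 : ∀ i j, S j i = - S i j)
    (h2 : ∀ i j, S (Sum.inr i) (Sum.inr j) = 0)
    (h3 : ∀ y : C → F, (∀ i : P, ∑ j, S (Sum.inl i) (Sum.inr j) * y j = 0) → y = 0) :
    ∀ t : ℕ, 2 * (Fintype.card C + t) ≤ S.rank →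
    ∃ f : Fin (Fintype.card C + 2 * t) → P,
      (S.submatrix (Sum.map f id) (Sum.map f id)).det ≠ 0 := by
  intro t
  induction t with
  | zero =>
    intro _
    obtain ⟨f, hf⟩ := alt_rows (S.submatrix Sum.inl Sum.inr) h3
    have h4 := alt_base S h1 h2 f hf
    let e : Fin (Fintype.card C + 2 * 0) ≃ C := (Fintype.equivFin C).symm
    refine ⟨fun a => f (e a), ?_⟩
    have h5 : S.submatrix (Sum.map (fun a => f (e a)) id) (Sum.map (fun a => f (e a)) id) =
        (S.submatrix (Sum.map f id) (Sum.map f id)).submatrix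
          (Equiv.sumCongr e (Equiv.refl C)) (Equiv.sumCongr e (Equiv.refl C)) := by
      ext a b
      rcases a with a | a <;> rcases b with b | b <;> rfl
    rw [h5, Matrix.det_submatrix_equiv_self]
    exact h4
  | succ t ih =>
    intro hr
    obtain ⟨f, hf⟩ := ih (by omega)
    obtain ⟨f', hf'⟩ := alt_step S h0 h1 _ f hf (by omega)
    exact ⟨f', hf'⟩

theorem t_ALT : S_ALT := by
  intro F _ P C _ _ _ _ S h0 h1 h2 h3 e hCe her
  obtain ⟨t, rfl⟩ : ∃ t, e = Fintype.card C + t := ⟨e - Fintype.card C, by omega⟩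
  obtain ⟨f, hf⟩ := alt_main S h0 h1 h2 h3 t her
  have hn : 2 * (Fintype.card C + t) - Fintype.card C = Fintype.card C + 2 * t := by omega
  rw [hn]
  refine ⟨f, ?_, hf⟩
  intro a b hab
  by_contra hne
  apply hf
  refine Matrix.det_zero_of_row_eq (i := Sum.inl a) (j := Sum.inl b)
    (fun h => hne (Sum.inl.inj h)) ?_
  funext z
  simp only [Matrix.submatrix_apply, Sum.map_inl, hab]

end H60.EA
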