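import Pool.Agent.H2.EA.Stm

/-!
Parts RKB and LA3.
-/

set_option autoImplicit false

open Finset Module

namespace H60.EA

open H2.EA

/-- membership in the column space -/
theorem rkb_mem_range {F J L : Type} [Field F] [Fintype J] [DecidableEq J] [Fintype L]
    [DecidableEq L] (N : Matrix J L F) (y : J → F)
    (h : ∀ w ∈ leftKer N, ∑ i, w i * y i = 0) : y ∈ LinearMap.range N.mulVecLin := by
  by_contra hy
  obtain ⟨f, hf1, hf2⟩ := Submodule.exists_le_ker_of_notMem hy
  have hf3 : ∀ x : J → F, f x = ∑ i, f (Pi.single i 1) * x i := by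
    intro x
    conv_lhs => rw [← Finset.univ_sum_single x]
    rw [map_sum]
    refine Finset.sum_congr rfl fun i _ => ?_
    have : (Pi.single i (x i) : J → F) = x i • (Pi.single i 1 : J → F) := by
      rw [← Pi.single_smul, smul_eq_mul, mul_one]
    rw [this, map_smul, smul_eq_mul, mul_comm]
  apply hf1
  rw [hf3 y]
  refine h (fun i => f (Pi.single i 1)) ?_
  intro l
  have h1 : N.mulVecLin (Pi.single l 1) ∈ LinearMap.ker f := hf2 ⟨_, rfl⟩
  rw [LinearMap.mem_ker, hf3] at h1
  rw [← h1]
  refine Finset.sum_congr rfl fun i _ => ?_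
  rw [Matrix.mulVecLin_apply, Matrix.mulVec_single_one]
  rfl

theorem rkb_mulVec {F J L : Type} [Field F] [Fintype J] [DecidableEq J] [Fintype L]
    [DecidableEq L] (D0 : Matrix J J F) (N : Matrix J L F) (x : J ⊕ L → F) :
    (Matrix.fromBlocks D0 N (-N.transpose) 0).mulVec x = 0 ↔
      (∀ i, ∑ j, D0 i j * x (Sum.inl j) + ∑ l, N i l * x (Sum.inr l) = 0) ∧
      ((fun i => x (Sum.inl i)) ∈ leftKer N) := by
  constructor
  · intro h
    constructor
    · intro i
      have := congrFun h (Sum.inl i)
      simpa [Matrix.mulVec, dotProduct, Fintype.sum_sum_type] using this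
    · intro l
      have := congrFun h (Sum.inr l)
      simp only [Matrix.mulVec, dotProduct, Fintype.sum_sum_type, Matrix.fromBlocks_apply₂₁,
        Matrix.fromBlocks_apply₂₂, Matrix.neg_apply, Matrix.transpose_apply, Matrix.zero_apply,
        zero_mul, Finset.sum_const_zero, add_zero, neg_mul, Finset.sum_neg_distrib, Pi.zero_apply,
        neg_eq_zero] at this
      rw [← this]
      exact Finset.sum_congr rfl fun i _ => mul_comm _ _
  · rintro ⟨h1, h2⟩
    funext z
    rcases z with i | l
    · have := h1 i
      simpa [Matrix.mulVec, dotProduct, Fintype.sum_sum_type] using this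
    · have := h2 l
      simp only [Matrix.mulVec, dotProduct, Fintype.sum_sum_type, Matrix.fromBlocks_apply₂₁,
        Matrix.fromBlocks_apply₂₂, Matrix.neg_apply, Matrix.transpose_apply, Matrix.zero_apply,
        zero_mul, Finset.sum_const_zero, add_zero, neg_mul, Finset.sum_neg_distrib, Pi.zero_apply,
        neg_eq_zero]
      rw [← this]
      exact Finset.sum_congr rfl fun i _ => mul_comm _ _

theorem t_RKB : S_RKB := by
  intro F _ J L _ _ _ _ D0 N
  set M : Matrix (J ⊕ L) (J ⊕ L) F := Matrix.fromBlocks D0 N (-N.transpose) 0 with hM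
  have hker : ∀ x, x ∈ LinearMap.ker M.mulVecLin ↔
      (∀ i, ∑ j, D0 i j * x (Sum.inl j) + ∑ l, N i l * x (Sum.inr l) = 0) ∧
      ((fun i => x (Sum.inl i)) ∈ leftKer N) := by
    intro x
    rw [LinearMap.mem_ker, Matrix.mulVecLin_apply, hM]
    exact rkb_mulVec D0 N x
  let f : LinearMap.ker M.mulVecLin →ₗ[F] (J → F) :=
    (LinearMap.funLeft F F (Sum.inl : J → J ⊕ L)).comp (LinearMap.ker M.mulVecLin).subtype
  have hfa : ∀ x i, f x i = x.1 (Sum.inl i) := fun x i => rfl
  have hfr : LinearMap.range f = radLK D0 N := by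
    ext s
    constructor
    · rintro ⟨x, rfl⟩
      obtain ⟨h1, h2⟩ := (hker x.1).mp x.2
      refine ⟨h2, fun w hw => ?_⟩
      have h3 : ∀ i, ∑ j, w i * D0 i j * f x j = - (w i * ∑ l, N i l * x.1 (Sum.inr l)) := by
        intro i
        have h4 := h1 i
        have h5 : ∑ j, w i * D0 i j * f x j = w i * ∑ j, D0 i j * x.1 (Sum.inl j) := by
          rw [Finset.mul_sum]
          exact Finset.sum_congr rfl fun j _ => by rw [hfa]; ring
        rw [h5, eq_neg_of_add_eq_zero_left h4]
        ring
      rw [Finset.sum_congr rfl fun i _ => h3 i, Finset.sum_neg_distrib, neg_eq_zero]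
      have h6 : ∀ i, w i * ∑ l, N i l * x.1 (Sum.inr l) = ∑ l, w i * N i l * x.1 (Sum.inr l) := by
        intro i
        rw [Finset.mul_sum]
        exact Finset.sum_congr rfl fun l _ => by ring
      rw [Finset.sum_congr rfl fun i _ => h6 i, Finset.sum_comm]
      refine Finset.sum_eq_zero fun l _ => ?_
      rw [← Finset.sum_mul, hw l, zero_mul]
    · rintro ⟨hs, hs'⟩
      have h1 : (fun i => ∑ j, D0 i j * s j) ∈ LinearMap.range N.mulVecLin := by
        refine rkb_mem_range N _ fun w hw => ?_
        rw [← hs' w hw]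
        refine Finset.sum_congr rfl fun i _ => ?_
        rw [Finset.mul_sum]
        exact Finset.sum_congr rfl fun j _ => by ring
      obtain ⟨t, ht⟩ := h1
      have h2 : Sum.elim s (-t) ∈ LinearMap.ker M.mulVecLin := by
        rw [hker]
        refine ⟨fun i => ?_, ?_⟩
        · have h3 := congrFun ht i
          simp only [Sum.elim_inl, Sum.elim_inr, Pi.neg_apply, mul_neg, Finset.sum_neg_distrib]
          rw [← h3]
          simp [Matrix.mulVec, dotProduct]
        · simpa using hs
      exact ⟨⟨_, h2⟩, by funext i; rfl⟩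
  let g : LinearMap.ker f →ₗ[F] (L → F) :=
    (LinearMap.funLeft F F (Sum.inr : L → J ⊕ L)).comp
      ((LinearMap.ker M.mulVecLin).subtype.comp (LinearMap.ker f).subtype)
  have hga : ∀ x l, g x l = x.1.1 (Sum.inr l) := fun x l => rfl
  have hginj : Function.Injective g := by
    intro x y hxy
    apply Subtype.ext
    apply Subtype.ext
    funext z
    rcases z with i | l
    · have h1 : f x.1 = 0 := x.2
      have h2 : f y.1 = 0 := y.2
      have h3 := congrFun h1 i
      have h4 := congrFun h2 i
      rw [hfa] at h3 h4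
      rw [h3, h4]
    · have := congrFun hxy l
      rw [hga, hga] at this
      exact this
  have hgr : LinearMap.range g = LinearMap.ker N.mulVecLin := by
    ext t
    constructor
    · rintro ⟨x, rfl⟩
      obtain ⟨h1, -⟩ := (hker x.1.1).mp x.1.2
      have h2 : f x.1 = 0 := x.2
      rw [LinearMap.mem_ker]
      funext i
      have h3 := h1 i
      have h4 : ∑ j, D0 i j * x.1.1 (Sum.inl j) = 0 := by
        refine Finset.sum_eq_zero fun j _ => ?_
        have := congrFun h2 j
        rw [hfa] at this
        rw [this, Pi.zero_apply, mul_zero]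
      rw [h4, zero_add] at h3
      simp only [Matrix.mulVecLin_apply, Matrix.mulVec, dotProduct, Pi.zero_apply]
      rw [← h3]
      exact Finset.sum_congr rfl fun l _ => by rw [hga]
    · intro ht
      rw [LinearMap.mem_ker] at ht
      have h2 : (Sum.elim 0 t : J ⊕ L → F) ∈ LinearMap.ker M.mulVecLin := by
        rw [hker]
        refine ⟨fun i => ?_, ?_⟩
        · have h3 := congrFun ht i
          simp only [Sum.elim_inl, Sum.elim_inr, Pi.zero_apply, mul_zero, Finset.sum_const_zero,
            zero_add]
          simpa [Matrix.mulVecLin_apply, Matrix.mulVec, dotProduct] using h3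
        · simp only [Sum.elim_inl]
          exact zero_mem _
      have h3 : (⟨_, h2⟩ : LinearMap.ker M.mulVecLin) ∈ LinearMap.ker f := by
        rw [LinearMap.mem_ker]
        funext i
        rfl
      exact ⟨⟨_, h3⟩, by funext l; rfl⟩
  have e1 := LinearMap.finrank_range_add_finrank_ker f
  have e2 := LinearMap.finrank_range_add_finrank_ker M.mulVecLin
  have e3 := LinearMap.finrank_range_add_finrank_ker N.mulVecLin
  have e4 := LinearMap.finrank_range_of_inj hginj
  rw [hfr] at e1
  rw [hgr] at e4
  rw [Module.finrank_fintype_fun_eq_card, Fintype.card_sum] at e2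
  rw [Module.finrank_fintype_fun_eq_card] at e3
  have e5 : M.rank = finrank F (LinearMap.range M.mulVecLin) := rfl
  have e6 : N.rank = finrank F (LinearMap.range N.mulVecLin) := rfl
  rw [e5, e6]
  omega

theorem la3_leftKer {F J L : Type} [Field F] [Fintype J] [DecidableEq J] [Fintype L]
    [DecidableEq L] (N : Matrix J L F) : finrank F (leftKer N) + N.rank = Fintype.card J := by
  have h1 : leftKer N = LinearMap.ker N.transpose.mulVecLin := by
    ext s
    rw [LinearMap.mem_ker]
    constructor
    · intro h
      funext l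
      rw [Matrix.mulVecLin_apply, Pi.zero_apply, ← h l]
      exact Finset.sum_congr rfl fun i _ => mul_comm _ _
    · intro h l
      have := congrFun h l
      rw [Matrix.mulVecLin_apply, Pi.zero_apply] at this
      rw [← this]
      exact Finset.sum_congr rfl fun i _ => mul_comm _ _
  have e2 := LinearMap.finrank_range_add_finrank_ker N.transpose.mulVecLin
  rw [Module.finrank_fintype_fun_eq_card] at e2
  rw [h1, ← Matrix.rank_transpose N]
  have e5 : N.transpose.rank = finrank F (LinearMap.range N.transpose.mulVecLin) := rfl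
  rw [e5]
  omega

theorem t_LA3 (hRKB : S_RKB) : S_LA3 := by
  intro F _ P1 P2 C C' _ _ _ _ _ _ _ _ D0 M1 M2 N h1 h2
  have r1 := hRKB F (P1 ⊕ P2) C (Matrix.fromBlocks 0 0 0 D0) (Matrix.fromRows M1 M2)
  have r2 := hRKB F P2 C' D0 N
  have k1 := la3_leftKer (Matrix.fromRows M1 M2)
  have k2 := la3_leftKer N
  have hmem : ∀ s : P1 ⊕ P2 → F, s ∈ leftKer (Matrix.fromRows M1 M2) ↔
      (∀ i, s (Sum.inl i) = 0) ∧ (fun i => s (Sum.inr i)) ∈ leftKer N := by
    intro s
    constructor
    · intro h
      have h3 : ∀ j, ∑ i, s (Sum.inl i) * M1 i j + ∑ i, s (Sum.inr i) * M2 i j = 0 := by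
        intro j
        have := h j
        simpa [Fintype.sum_sum_type] using this
      have h4 := h1 (fun i => s (Sum.inl i)) (fun i => s (Sum.inr i)) h3
      have h5 : ∀ i, s (Sum.inl i) = 0 := fun i => congrFun h4 i
      refine ⟨h5, ?_⟩
      refine (h2 _).mp fun j => ?_
      have h6 := h3 j
      rw [Finset.sum_eq_zero (s := (Finset.univ : Finset P1)) (fun i _ => by rw [h5 i, zero_mul]), zero_add] at h6
      exact h6
    · rintro ⟨h3, h4⟩ j
      rw [Fintype.sum_sum_type]
      simp only [Matrix.fromRows_apply_inl, Matrix.fromRows_apply_inr, h3, zero_mul,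
        Finset.sum_const_zero, zero_add]
      exact (h2 _).mpr h4 j
  let f : (P2 → F) →ₗ[F] (P1 ⊕ P2 → F) :=
    { toFun := fun s => Sum.elim 0 s
      map_add' := by
        intro s t
        funext z
        rcases z with i | i <;> simp
      map_smul' := by
        intro c s
        funext z
        rcases z with i | i <;> simp }
  have hfl : ∀ s i, f s (Sum.inl i) = 0 := fun s i => rfl
  have hfr : ∀ s i, f s (Sum.inr i) = s i := fun s i => rfl
  have hfinj : Function.Injective f := by
    intro s t h
    funext i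
    have := congrFun h (Sum.inr i)
    rwa [hfr, hfr] at this
  have hlk : (leftKer N).map f = leftKer (Matrix.fromRows M1 M2) := by
    ext s
    rw [Submodule.mem_map]
    constructor
    · rintro ⟨t, ht, rfl⟩
      exact (hmem _).mpr ⟨fun i => hfl t i, ht⟩
    · intro hs
      obtain ⟨h3, h4⟩ := (hmem s).mp hs
      refine ⟨fun i => s (Sum.inr i), h4, ?_⟩
      funext z
      rcases z with i | i
      · rw [hfl, h3]
      · rfl
  have hrad : (radLK D0 N).map f =
      radLK (Matrix.fromBlocks 0 0 0 D0) (Matrix.fromRows M1 M2) := by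
    have hform : ∀ w s : P1 ⊕ P2 → F,
        ∑ i, ∑ j, w i * (Matrix.fromBlocks (0 : Matrix P1 P1 F) 0 0 D0) i j * s j =
        ∑ i, ∑ j, w (Sum.inr i) * D0 i j * s (Sum.inr j) := by
      intro w s
      simp [Fintype.sum_sum_type]
    ext s
    rw [Submodule.mem_map]
    constructor
    · rintro ⟨t, ⟨ht, ht'⟩, rfl⟩
      refine ⟨(hmem _).mpr ⟨fun i => hfl t i, ht⟩, fun w hw => ?_⟩
      rw [hform]
      exact ht' _ ((hmem w).mp hw).2
    · rintro ⟨hs, hs'⟩
      obtain ⟨h3, h4⟩ := (hmem s).mp hs
      refine ⟨fun i => s (Sum.inr i), ⟨h4, fun w hw => ?_⟩, ?_⟩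
      · have := hs' (f w) ((hmem _).mpr ⟨fun i => hfl w i, hw⟩)
        rw [hform] at this
        exact this
      · funext z
        rcases z with i | i
        · rw [hfl, h3]
        · rfl
  have d1 : finrank F (leftKer (Matrix.fromRows M1 M2)) = finrank F (leftKer N) := by
    rw [← hlk]
    exact (Submodule.equivMapOfInjective f hfinj _).finrank_eq.symm
  have d2 : finrank F (radLK (Matrix.fromBlocks 0 0 0 D0) (Matrix.fromRows M1 M2)) =
      finrank F (radLK D0 N) := by
    rw [← hrad]
    exact (Submodule.equivMapOfInjective f hfinj _).finrank_eq.symm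
  rw [Fintype.card_sum] at r1 k1
  omega

end H60.EA
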